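import Pool.Agent.W544.PG.Defs4

set_option autoImplicit false

open Matrix Finset Module

namespace Pool.Agent.W366.PG.KIL

open Pool.Agent.W544.PG

noncomputable section

/-- the space of skew symmetric matrices -/
def so (n : ℕ) : Submodule ℂ (Matrix (Fin n) (Fin n) ℂ) where
  carrier := {Z | Zᵀ = -Z}
  add_mem' := by
    intro a b ha hb
    simp only [Set.mem_ofPred_eq] at ha hb ⊢
    rw [Matrix.transpose_add, ha, hb, neg_add]
  zero_mem' := by simp
  smul_mem' := by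
    intro c a ha
    simp only [Set.mem_ofPred_eq] at ha ⊢
    rw [Matrix.transpose_smul, ha, smul_neg]

lemma mem_so {n : ℕ} {Z : Matrix (Fin n) (Fin n) ℂ} : Z ∈ so n ↔ Zᵀ = -Z := Iff.rfl

/-- trace of an endomorphism of the space of matrices -/
lemma trace_formula {n : ℕ} (f : Matrix (Fin n) (Fin n) ℂ →ₗ[ℂ] Matrix (Fin n) (Fin n) ℂ) :
    LinearMap.trace ℂ _ f = ∑ i, ∑ j, f (Matrix.single i j 1) i j := by
  rw [LinearMap.trace_eq_matrix_trace ℂ (Matrix.stdBasis ℂ (Fin n) (Fin n)), Matrix.trace,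
    Fintype.sum_prod_type]
  refine Finset.sum_congr rfl (fun i _ => Finset.sum_congr rfl (fun j _ => ?_))
  rw [Matrix.diag_apply, LinearMap.toMatrix_apply, Matrix.stdBasis_eq_single]
  rfl

lemma single_mul_apply {n : ℕ} (A B : Matrix (Fin n) (Fin n) ℂ) (a b i j : Fin n) :
    (A * Matrix.single a b (1 : ℂ) * B) i j = A i a * B b j := by
  rw [Matrix.mul_apply, Finset.sum_eq_single b]
  · rw [Matrix.mul_apply, Finset.sum_eq_single a]
    · simp
    · intro c _ hc
      rw [Matrix.single_apply_of_row_ne (Ne.symm hc)]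
      ring
    · simp
  · intro c _ hc
    have : (A * Matrix.single a b (1 : ℂ)) i c = 0 := by
      rw [Matrix.mul_apply]
      apply Finset.sum_eq_zero
      intro d _
      rw [Matrix.single_apply_of_col_ne _ _ (Ne.symm hc)]
      ring
    rw [this]; ring
  · simp

/-- `Z ↦ A Z B` -/
def LR {n : ℕ} (A B : Matrix (Fin n) (Fin n) ℂ) :
    Matrix (Fin n) (Fin n) ℂ →ₗ[ℂ] Matrix (Fin n) (Fin n) ℂ where
  toFun Z := A * Z * B
  map_add' := by intro x y; rw [Matrix.mul_add, Matrix.add_mul]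
  map_smul' := by intro c x; simp

/-- `Z ↦ A Zᵀ B` -/
def LRT {n : ℕ} (A B : Matrix (Fin n) (Fin n) ℂ) :
    Matrix (Fin n) (Fin n) ℂ →ₗ[ℂ] Matrix (Fin n) (Fin n) ℂ where
  toFun Z := A * Zᵀ * B
  map_add' := by intro x y; rw [Matrix.transpose_add, Matrix.mul_add, Matrix.add_mul]
  map_smul' := by intro c x; simp

lemma trace_LR {n : ℕ} (A B : Matrix (Fin n) (Fin n) ℂ) :
    LinearMap.trace ℂ _ (LR A B) = A.trace * B.trace := by
  rw [trace_formula, Matrix.trace, Matrix.trace, Finset.sum_mul_sum]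
  refine Finset.sum_congr rfl (fun i _ => Finset.sum_congr rfl (fun j _ => ?_))
  exact single_mul_apply A B i j i j

lemma trace_LRT {n : ℕ} (A B : Matrix (Fin n) (Fin n) ℂ) :
    LinearMap.trace ℂ _ (LRT A B) = (Aᵀ * B).trace := by
  rw [trace_formula, Matrix.trace]
  rw [Finset.sum_comm]
  refine Finset.sum_congr rfl (fun j _ => ?_)
  rw [Matrix.diag_apply, Matrix.mul_apply]
  refine Finset.sum_congr rfl (fun i _ => ?_)
  have h : LRT A B (Matrix.single i j 1) = A * Matrix.single j i (1 : ℂ) * B := by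
    change A * (Matrix.single i j (1 : ℂ))ᵀ * B = _
    rw [Matrix.transpose_single]
  rw [h, single_mul_apply, Matrix.transpose_apply]

/-- projection to the skew symmetric matrices -/
def P (n : ℕ) : Matrix (Fin n) (Fin n) ℂ →ₗ[ℂ] Matrix (Fin n) (Fin n) ℂ :=
  (1 / 2 : ℂ) • (LR 1 1 - LRT 1 1)

lemma P_apply {n : ℕ} (Z : Matrix (Fin n) (Fin n) ℂ) : P n Z = (1 / 2 : ℂ) • (Z - Zᵀ) := by
  change (1 / 2 : ℂ) • (1 * Z * 1 - 1 * Zᵀ * 1) = _
  simp

lemma P_mem {n : ℕ} (Z : Matrix (Fin n) (Fin n) ℂ) : P n Z ∈ so n := by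
  rw [mem_so, P_apply, Matrix.transpose_smul, Matrix.transpose_sub, Matrix.transpose_transpose,
    ← smul_neg, neg_sub]

lemma P_of_mem {n : ℕ} (Z : Matrix (Fin n) (Fin n) ℂ) (h : Z ∈ so n) : P n Z = Z := by
  rw [mem_so] at h
  rw [P_apply, h, sub_neg_eq_add, ← two_smul ℂ Z, smul_smul]
  norm_num

/-- the square of the adjoint action -/
def ad2 {n : ℕ} (y : Matrix (Fin n) (Fin n) ℂ) :
    Matrix (Fin n) (Fin n) ℂ →ₗ[ℂ] Matrix (Fin n) (Fin n) ℂ :=
  LR (y * y) 1 - (2 : ℂ) • LR y y + LR 1 (y * y)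

lemma ad2_apply {n : ℕ} (y Z : Matrix (Fin n) (Fin n) ℂ) : ad2 y Z = br y (br y Z) := by
  change y * y * Z * 1 - (2 : ℂ) • (y * Z * y) + 1 * Z * (y * y) = _
  unfold br
  rw [two_smul]
  noncomm_ring

/-- the square of the adjoint action composed with the transposition -/
def ad2T {n : ℕ} (y : Matrix (Fin n) (Fin n) ℂ) :
    Matrix (Fin n) (Fin n) ℂ →ₗ[ℂ] Matrix (Fin n) (Fin n) ℂ :=
  LRT (y * y) 1 - (2 : ℂ) • LRT y y + LRT 1 (y * y)

lemma ad2T_apply {n : ℕ} (y Z : Matrix (Fin n) (Fin n) ℂ) : ad2T y Z = ad2 y Zᵀ := rfl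

lemma br_mem {n : ℕ} {y z : Matrix (Fin n) (Fin n) ℂ} (hy : y ∈ so n) (hz : z ∈ so n) :
    br y z ∈ so n := by
  rw [mem_so] at *
  unfold br
  rw [Matrix.transpose_sub, Matrix.transpose_mul, Matrix.transpose_mul, hy, hz]
  noncomm_ring

lemma ad2_mem {n : ℕ} {y z : Matrix (Fin n) (Fin n) ℂ} (hy : y ∈ so n) (hz : z ∈ so n) :
    ad2 y z ∈ so n := by
  rw [ad2_apply]
  exact br_mem hy (br_mem hy hz)

lemma comp_eq {n : ℕ} (y : Matrix (Fin n) (Fin n) ℂ) :
    (ad2 y) ∘ₗ (P n) = (1 / 2 : ℂ) • (ad2 y - ad2T y) := by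
  apply LinearMap.ext
  intro Z
  rw [LinearMap.comp_apply, P_apply, map_smul, map_sub]
  rfl

lemma trace_skew {n : ℕ} {y : Matrix (Fin n) (Fin n) ℂ} (hy : yᵀ = -y) : y.trace = 0 := by
  have h := Matrix.trace_transpose y
  rw [hy, Matrix.trace_neg] at h
  linear_combination (-1 / 2 : ℂ) * h

lemma trace_comp {n : ℕ} {y : Matrix (Fin n) (Fin n) ℂ} (hy : yᵀ = -y) :
    LinearMap.trace ℂ _ ((ad2 y) ∘ₗ (P n)) = ((n : ℂ) - 2) * (y * y).trace := by
  rw [comp_eq, map_smul, map_sub]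
  unfold ad2 ad2T
  rw [map_add, map_sub, map_smul, map_add, map_sub, map_smul, trace_LR, trace_LR, trace_LR,
    trace_LRT, trace_LRT, trace_LRT, trace_skew hy, Matrix.transpose_mul, hy, Matrix.transpose_one,
    Matrix.trace_one, Fintype.card_fin]
  simp only [smul_eq_mul, Matrix.mul_one, Matrix.one_mul, Matrix.neg_mul, Matrix.mul_neg, neg_neg,
    Matrix.trace_neg]
  ring

lemma trace_P (n : ℕ) : LinearMap.trace ℂ _ (P n) = ((n : ℂ) * n - n) / 2 := by
  unfold P
  rw [map_smul, map_sub, trace_LR, trace_LRT, Matrix.transpose_one, Matrix.trace_one,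
    Fintype.card_fin, Matrix.mul_one, Matrix.trace_one, Fintype.card_fin, smul_eq_mul]
  ring

lemma finrank_so (n : ℕ) : ((finrank ℂ (so n) : ℕ) : ℂ) = ((n : ℂ) * n - n) / 2 := by
  rw [← trace_P, ← LinearMap.trace_restrict_eq_of_forall_mem (so n) (P n) P_mem,
    ← LinearMap.trace_id ℂ (so n)]
  congr 1
  apply LinearMap.ext
  intro x
  apply Subtype.ext
  rw [LinearMap.coe_restrict_apply, P_of_mem _ x.2]
  rfl

/-- the restriction of `ad2` -/
def ad2r {n : ℕ} (y : Matrix (Fin n) (Fin n) ℂ) (hy : y ∈ so n) : so n →ₗ[ℂ] so n :=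
  (ad2 y).restrict (fun _ hz => ad2_mem hy hz)

lemma trace_ad2r {n : ℕ} (y : Matrix (Fin n) (Fin n) ℂ) (hy : y ∈ so n) :
    LinearMap.trace ℂ _ (ad2r y hy) = ((n : ℂ) - 2) * (y * y).trace := by
  have hmem : ∀ x, ((ad2 y) ∘ₗ (P n)) x ∈ so n := by
    intro x
    rw [LinearMap.comp_apply]
    exact ad2_mem hy (P_mem x)
  rw [← trace_comp (mem_so.1 hy), ← LinearMap.trace_restrict_eq_of_forall_mem (so n)
    ((ad2 y) ∘ₗ (P n)) hmem]
  congr 1
  apply LinearMap.ext
  intro x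
  apply Subtype.ext
  rw [LinearMap.coe_restrict_apply, LinearMap.comp_apply, P_of_mem _ x.2]
  rfl

theorem kil : S_kil := by
  intro n m hn hm θ hθ
  -- the linear equivalence
  let e0 : so n →ₗ[ℂ] so m := θ.restrict (fun y hy => hθ.map y hy)
  have he0 : ∀ x : so n, (e0 x : Matrix (Fin m) (Fin m) ℂ) = θ x := fun x => rfl
  have hinj : Function.Injective e0 := by
    rw [injective_iff_map_eq_zero]
    intro x hx
    apply Subtype.ext
    apply hθ.inj _ x.2
    rw [← he0, hx]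
    rfl
  have hsurj : Function.Surjective e0 := by
    intro z
    obtain ⟨y, hy, hyz⟩ := hθ.surj z.1 z.2
    exact ⟨⟨y, hy⟩, Subtype.ext hyz⟩
  let e : so n ≃ₗ[ℂ] so m := LinearEquiv.ofBijective e0 ⟨hinj, hsurj⟩
  have he : ∀ x : so n, (e x : Matrix (Fin m) (Fin m) ℂ) = θ x := fun x => rfl
  have hnm : n = m := by
    have h1 : finrank ℂ (so n) = finrank ℂ (so m) := e.finrank_eq
    have h2 := finrank_so n
    have h3 := finrank_so m
    rw [h1, h3] at h2
    have h4 : ((m : ℂ) - n) * ((m : ℂ) + n - 1) = 0 := by linear_combination 2 * h2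
    rcases mul_eq_zero.1 h4 with h5 | h5
    · have : (m : ℂ) = (n : ℂ) := by linear_combination h5
      exact_mod_cast this.symm
    · exfalso
      have : ((m + n : ℕ) : ℂ) = ((1 : ℕ) : ℂ) := by push_cast; linear_combination h5
      have h6 : m + n = 1 := by exact_mod_cast this
      omega
  refine ⟨hnm, ?_⟩
  intro y hy
  have hy' : θ y ∈ so m := hθ.map y hy
  have hconj : e.conj (ad2r y (mem_so.2 hy)) = ad2r (θ y) hy' := by
    apply LinearMap.ext
    intro z
    obtain ⟨x, rfl⟩ := e.surjective z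
    apply Subtype.ext
    rw [LinearEquiv.conj_apply_apply, LinearEquiv.symm_apply_apply, he]
    change θ (ad2 y x) = ad2 (θ y) (θ x)
    rw [ad2_apply, ad2_apply, hθ.br _ _ hy (br_mem (mem_so.2 hy) x.2), hθ.br _ _ hy x.2]
  have htr : LinearMap.trace ℂ _ (ad2r (θ y) hy') = LinearMap.trace ℂ _ (ad2r y (mem_so.2 hy)) := by
    rw [← hconj, LinearMap.trace_conj']
  have hc : (m : ℂ) = (n : ℂ) := by rw [hnm]
  rw [trace_ad2r, trace_ad2r, hc] at htr
  have hn2 : (n : ℂ) - 2 ≠ 0 := by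
    intro h
    have : (n : ℂ) = ((2 : ℕ) : ℂ) := by push_cast; linear_combination h
    have h6 : n = 2 := by exact_mod_cast this
    omega
  exact mul_left_cancel₀ hn2 htr

end

end Pool.Agent.W366.PG.KIL
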